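import Pool.Agent.H902A.Geo

set_option autoImplicit false

/-!
abc triples with a fixed term and `c > rad (a b c) (log c) ^ k`.
-/

namespace Pool.Agent.H902A

open Finset

/-- the radical -/
def rad (m : ℕ) : ℕ := ∏ p ∈ m.primeFactors, p

theorem rad_pos (m : ℕ) : 0 < rad m :=
  Finset.prod_pos fun _ hp => (Nat.prime_of_mem_primeFactors hp).pos

theorem rad_le {m : ℕ} (hm : m ≠ 0) : rad m ≤ m :=
  Nat.le_of_dvd (Nat.pos_of_ne_zero hm) (Nat.prod_primeFactors_dvd m)

theorem rad_mul_le (m n : ℕ) : rad (m * n) ≤ rad m * rad n := by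
  rcases Nat.eq_zero_or_pos m with hm | hm
  · subst hm
    have h1 : rad 0 = 1 := by simp [rad]
    rw [zero_mul, h1, one_mul]
    exact rad_pos n
  rcases Nat.eq_zero_or_pos n with hn | hn
  · subst hn
    have h1 : rad 0 = 1 := by simp [rad]
    rw [mul_zero, h1, mul_one]
    exact rad_pos m
  unfold rad
  rw [Nat.primeFactors_mul hm.ne' hn.ne', ← Finset.prod_union_inter]
  refine Nat.le_mul_of_pos_right _ (Finset.prod_pos fun p hp => ?_)
  exact (Nat.prime_of_mem_primeFactors (Finset.mem_inter.1 hp).1).pos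

theorem rad_pow_le (m k : ℕ) : rad (m ^ k) ≤ rad m := by
  rcases Nat.eq_zero_or_pos k with hk | hk
  · subst hk
    have h1 : rad 1 = 1 := by simp [rad]
    rw [pow_zero, h1]
    exact rad_pos m
  · unfold rad
    rw [Nat.primeFactors_pow _ hk.ne']

theorem rad_prod_le {ι : Type*} (I : Finset ι) (f : ι → ℕ) :
    rad (∏ i ∈ I, f i) ≤ ∏ i ∈ I, rad (f i) := by
  classical
  induction I using Finset.induction_on with
  | empty => simp [rad]
  | insert a I ha ih =>
    rw [Finset.prod_insert ha, Finset.prod_insert ha]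
    exact (rad_mul_le _ _).trans (Nat.mul_le_mul_left _ ih)

theorem odd_x (a j x : ℕ) (hj : 1 ≤ j) (h : (a + 1) ^ j = x + a) : Odd x := by
  rcases Nat.even_or_odd a with ha | ha
  · have h1 : Odd ((a + 1) ^ j) := (ha.add_one).pow
    rw [h] at h1
    rcases Nat.even_or_odd x with hx | hx
    · exact absurd (hx.add ha) (Nat.not_even_iff_odd.2 h1)
    · exact hx
  · have h1 : Even ((a + 1) ^ j) := (ha.add_one).pow_of_ne_zero (by omega)
    rw [h] at h1
    rcases Nat.even_or_odd x with hx | hx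
    · exact absurd (hx.add_odd ha) (Nat.not_odd_iff_even.2 h1)
    · exact hx

theorem core (a : ℕ) (ha : 1 ≤ a) (k : ℕ) (X : ℝ) :
    ∃ b c : ℕ, 0 < b ∧ Nat.Coprime a b ∧ a + b = c ∧ X < c ∧
      (rad (a * b * c) : ℝ) * Real.log c ^ k < c := by
  set T : ℕ := 4 * k + 1 with hT
  set un : Fin T → ℕ := fun i => a * (i.1 + 1) with hun
  set u : Fin T → ℤ := fun i => (un i : ℤ) with hu
  have hu0 : ∀ i, u i ≠ 0 := by
    intro i
    have : 0 < un i := by
      rw [hun]
      positivity
    change (un i : ℤ) ≠ 0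
    exact_mod_cast this.ne'
  have hinj : Function.Injective u := by
    intro i j hij
    have h1 : un i = un j := by
      change (un i : ℤ) = (un j : ℤ) at hij
      exact_mod_cast hij
    rw [hun] at h1
    have h2 := Nat.eq_of_mul_eq_mul_left (by omega) h1
    exact Fin.ext (by omega)
  obtain ⟨K, x0, hK⟩ := small_exponents u hu0 hinj
  set g : ℕ := a + 1 with hg
  set A0 : ℕ := a * g * ∏ i : Fin T, (1 + un i) with hA0
  set K3 : ℕ := (1 + a) + ∑ i : Fin T, K * un i with hK3
  set j : ℕ := x0 + A0 * K3 ^ k + ⌈|X|⌉₊ + a + 2 with hj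
  have hgj : j < g ^ j := lt_of_lt_of_le Nat.lt_two_pow_self (Nat.pow_le_pow_left (by omega) j)
  obtain ⟨x, hx⟩ : ∃ x, g ^ j = x + a := ⟨g ^ j - a, by omega⟩
  have hx0 : x0 ≤ x := by omega
  have hx1 : 1 ≤ x := by omega
  have hxA : A0 * K3 ^ k < x := by omega
  have hxX : ⌈|X|⌉₊ < x := by omega
  have hodd : Odd x := odd_x a j x (by omega) hx
  have hag : Nat.Coprime a g := by
    rw [hg]
    exact (Nat.coprime_self_add_right).2 (Nat.coprime_one_right a)
  have hax : Nat.Coprime a x := by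
    have h1 : Nat.Coprime a (g ^ j) := hag.pow_right j
    rw [hx] at h1
    exact (Nat.coprime_add_self_right).1 h1
  have hgx : Nat.Coprime (g ^ j) x := by
    rw [hx]
    exact (Nat.coprime_self_add_left).2 hax
  set r : ℕ := 2 * T + 2 with hr
  have hcop : ∀ i, Nat.Coprime (1 + un i * x) (x ^ r) := by
    intro i
    apply Nat.Coprime.pow_right
    exact (Nat.coprime_add_mul_right_left 1 x (un i)).2 (Nat.coprime_one_left x)
  set U : Fin T → (ZMod (x ^ r))ˣ := fun i => ZMod.unitOfCoprime (1 + un i * x) (hcop i) with hU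
  have hUc : ∀ i, (U i : ZMod (x ^ r)) = ((1 + un i * x : ℕ) : ZMod (x ^ r)) := fun i =>
    ZMod.coe_unitOfCoprime _ _
  have hUz : ∀ i, (U i : ZMod (x ^ r)) = ((1 + u i * x : ℤ) : ZMod (x ^ r)) := by
    intro i
    rw [hUc i, hu]
    push_cast
    ring
  obtain ⟨p, q, hpq⟩ := Nat.isCoprime_iff_coprime.2 (hgx.pow_right r)
  have hgz : ((g ^ j : ℕ) : ℤ) = x + a := by exact_mod_cast hx
  have hy : (x : ℤ) ∣ a * p - 1 := by
    refine ⟨- p - q * (x : ℤ) ^ (2 * T + 1), ?_⟩
    have h1 : ((x ^ r : ℕ) : ℤ) = (x : ℤ) ^ (2 * T + 1) * x := by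
      rw [hr]
      push_cast
      ring
    rw [h1, hgz] at hpq
    linear_combination hpq
  obtain ⟨n, hn⟩ := gen a x hodd hax (a * p) hy (2 * T + 1)
  obtain ⟨f, hf, hfU⟩ := hK x hx0 U hUz (fun i => if i = 0 then (n : ℤ) else 0)
  have hprodw : ∏ i, U i ^ (if i = 0 then (n : ℤ) else 0) = U 0 ^ n := by
    rw [Finset.prod_eq_single (0 : Fin T)]
    · simp
    · intro i _ hi
      rw [if_neg hi, zpow_zero]
    · simp
  rw [hprodw] at hfU
  set c : ℕ := g ^ j * ∏ i, (1 + un i * x) ^ (f i) with hc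
  have hmod : (c : ZMod (x ^ r)) = (a : ZMod (x ^ r)) := by
    have h1 : ((∏ i, (1 + un i * x) ^ (f i) : ℕ) : ZMod (x ^ r)) =
        (((1 + a * x : ℤ) ^ n : ℤ) : ZMod (x ^ r)) := by
      have h2 := congrArg (fun v : (ZMod (x ^ r))ˣ => (v : ZMod (x ^ r))) hfU
      simp only [Units.coe_prod, Units.val_pow_eq_pow_val] at h2
      rw [hUc 0] at h2
      rw [Nat.cast_prod]
      have h3 : ∀ i, (((1 + un i * x) ^ (f i) : ℕ) : ZMod (x ^ r)) =
          (U i : ZMod (x ^ r)) ^ (f i) := by
        intro i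
        rw [Nat.cast_pow, hUc i]
      rw [Finset.prod_congr rfl fun i _ => h3 i, h2, hun]
      push_cast
      simp
    have h4 : (((1 + a * x : ℤ) ^ n : ℤ) : ZMod (x ^ r)) = ((a * p : ℤ) : ZMod (x ^ r)) := by
      rw [← sub_eq_zero, ← Int.cast_sub, ZMod.intCast_zmod_eq_zero_iff_dvd]
      have h5 : ((x ^ r : ℕ) : ℤ) = (x : ℤ) ^ (2 * T + 1 + 1) := by
        rw [hr]
        push_cast
        ring
      rw [h5]
      exact hn
    rw [hc, Nat.cast_mul, h1, h4]
    have h6 := congrArg (fun z : ℤ => (z : ZMod (x ^ r))) hpq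
    simp only [Int.cast_add, Int.cast_mul, Int.cast_natCast, ZMod.natCast_self, mul_zero,
      add_zero, Int.cast_one] at h6
    rw [Int.cast_mul, Int.cast_natCast]
    linear_combination (a : ZMod (x ^ r)) * h6
  have hac : a < c := by
    have h1 : (1 + un 0 * x) ^ (f 0) ≤ ∏ i, (1 + un i * x) ^ (f i) :=
      Finset.single_le_prod' (f := fun i => (1 + un i * x) ^ (f i))
        (fun i _ => Nat.one_le_pow _ _ (by omega)) (Finset.mem_univ 0)
    have h2 : 1 + un 0 * x ≤ (1 + un 0 * x) ^ (f 0) :=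
      Nat.le_self_pow (by have := (hf 0).1; omega) _
    have h3 : 1 ≤ g ^ j := Nat.one_le_pow _ _ (by omega)
    have h4 : a ≤ un 0 * x := by
      rw [hun]
      simp only [Fin.val_zero, zero_add, mul_one]
      exact Nat.le_mul_of_pos_right _ hx1
    have h5 : ∏ i, (1 + un i * x) ^ (f i) ≤ c := by
      rw [hc]
      exact Nat.le_mul_of_pos_left _ (by omega)
    omega
  obtain ⟨b', hb'⟩ : x ^ r ∣ c - a := by
    have h1 := (ZMod.natCast_eq_natCast_iff _ _ _).1 hmod
    exact (Nat.modEq_iff_dvd' hac.le).1 h1.symm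
  have hbpos : 0 < c - a := by omega
  have hb'0 : b' ≠ 0 := by
    rintro rfl
    omega
  have hcopac : Nat.Coprime a c := by
    rw [hc]
    refine (hag.pow_right j).mul_right ?_
    refine Nat.Coprime.prod_right fun i _ => ?_
    refine Nat.Coprime.pow_right _ ?_
    rw [hun]
    simp only
    rw [mul_assoc]
    exact (Nat.coprime_add_mul_left_right a 1 _).2 (Nat.coprime_one_right a)
  refine ⟨c - a, c, hbpos, ?_, by omega, ?_, ?_⟩
  · have h1 : a + (c - a) = c := by omega
    rw [← h1] at hcopac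
    exact (Nat.coprime_self_add_right).1 hcopac
  · have h1 : x ≤ c := by
      have h2 : g ^ j ≤ c := by
        rw [hc]
        refine Nat.le_mul_of_pos_right _ (Finset.prod_pos fun i _ => ?_)
        positivity
      omega
    have h3 : |X| ≤ (⌈|X|⌉₊ : ℝ) := Nat.le_ceil _
    have h4 : ((⌈|X|⌉₊ : ℕ) : ℝ) < (x : ℝ) := by exact_mod_cast hxX
    have h5 : (x : ℝ) ≤ (c : ℝ) := by exact_mod_cast h1
    linarith [le_abs_self X]
  · -- the radical
    have hradb : rad (c - a) ≤ x * b' := by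
      rw [hb']
      exact (rad_mul_le _ _).trans (Nat.mul_le_mul ((rad_pow_le _ _).trans (rad_le (by omega)))
        (rad_le hb'0))
    have hradc : rad c ≤ g * ∏ i, (1 + un i * x) := by
      rw [hc]
      refine (rad_mul_le _ _).trans (Nat.mul_le_mul ((rad_pow_le _ _).trans (rad_le (by omega))) ?_)
      refine (rad_prod_le _ _).trans (Finset.prod_le_prod' fun i _ => ?_)
      exact (rad_pow_le _ _).trans (rad_le (by omega))
    have hprod : ∏ i, (1 + un i * x) ≤ (∏ i, (1 + un i)) * x ^ T := by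
      calc ∏ i, (1 + un i * x) ≤ ∏ i, ((1 + un i) * x) := by
            refine Finset.prod_le_prod' fun i _ => ?_
            nlinarith
        _ = (∏ i, (1 + un i)) * x ^ T := by
            rw [Finset.prod_mul_distrib]
            simp
    have hrad : rad (a * (c - a) * c) * x ^ (T + 1) ≤ A0 * c := by
      have h1 : rad (a * (c - a) * c) ≤ a * (x * b') * (g * ((∏ i, (1 + un i)) * x ^ T)) := by
        refine (rad_mul_le _ _).trans (Nat.mul_le_mul ?_ (hradc.trans (Nat.mul_le_mul_left _ hprod)))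
        exact (rad_mul_le _ _).trans (Nat.mul_le_mul (rad_le (by omega)) hradb)
      have h2 : x ^ r * b' ≤ c := by omega
      calc rad (a * (c - a) * c) * x ^ (T + 1)
          ≤ a * (x * b') * (g * ((∏ i, (1 + un i)) * x ^ T)) * x ^ (T + 1) :=
            Nat.mul_le_mul_right _ h1
        _ = A0 * (x ^ r * b') := by
            rw [hA0, hr]
            ring
        _ ≤ A0 * c := Nat.mul_le_mul_left _ h2
    -- the logarithm
    have hxR : (1 : ℝ) ≤ x := by exact_mod_cast hx1
    have hlog : Real.log c ≤ K3 * (x : ℝ) ^ 4 := by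
      have h1 : (c : ℝ) = ((g ^ j : ℕ) : ℝ) * ∏ i, ((1 : ℝ) + un i * x) ^ (f i) := by
        rw [hc]
        push_cast
        ring
      have hpos : ∀ i, (0 : ℝ) < 1 + un i * x := fun i => by positivity
      rw [h1, Real.log_mul (by positivity) (Finset.prod_ne_zero_iff.2 fun i _ =>
        pow_ne_zero _ (hpos i).ne'), Real.log_prod (fun i _ => pow_ne_zero _ (hpos i).ne')]
      have h2 : Real.log ((g ^ j : ℕ) : ℝ) ≤ (1 + a) * (x : ℝ) ^ 4 := by
        rw [hx]
        have h3 : Real.log ((x + a : ℕ) : ℝ) ≤ (x + a : ℕ) :=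
          (Real.log_le_sub_one_of_pos (by positivity)).trans (by linarith)
        refine h3.trans ?_
        push_cast
        have h4 : (x : ℝ) ≤ (x : ℝ) ^ 4 := le_self_pow₀ hxR (by norm_num)
        have h5 : (1 : ℝ) ≤ (x : ℝ) ^ 4 := one_le_pow₀ hxR
        have h6 : (0 : ℝ) ≤ a := by positivity
        nlinarith
      have h3 : ∑ i, Real.log (((1 : ℝ) + un i * x) ^ (f i)) ≤
          ∑ i : Fin T, (K * un i : ℝ) * (x : ℝ) ^ 4 := by
        refine Finset.sum_le_sum fun i _ => ?_
        rw [Real.log_pow]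
        have h4 : Real.log (1 + un i * x) ≤ un i * x := by
          have := Real.log_le_sub_one_of_pos (hpos i)
          linarith
        have h5 : (f i : ℝ) ≤ K * (x : ℝ) ^ 3 := by exact_mod_cast (hf i).2
        calc (f i : ℝ) * Real.log (1 + un i * x) ≤ (K * (x : ℝ) ^ 3) * (un i * x) := by
              refine mul_le_mul h5 h4 (Real.log_nonneg ?_) (by positivity)
              have : (0 : ℝ) ≤ un i * x := by positivity
              linarith
          _ = (K * un i : ℝ) * (x : ℝ) ^ 4 := by ring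
      refine (add_le_add h2 h3).trans (le_of_eq ?_)
      rw [← Finset.sum_mul, hK3]
      push_cast
      ring
    have hc1 : (1 : ℝ) ≤ c := by
      have : 1 ≤ c := by omega
      exact_mod_cast this
    have hlog0 : 0 ≤ Real.log c := Real.log_nonneg hc1
    have hpow : Real.log c ^ k ≤ (K3 : ℝ) ^ k * (x : ℝ) ^ (4 * k) := by
      calc Real.log c ^ k ≤ (K3 * (x : ℝ) ^ 4) ^ k := pow_le_pow_left₀ hlog0 hlog k
        _ = (K3 : ℝ) ^ k * (x : ℝ) ^ (4 * k) := by
            rw [mul_pow, ← pow_mul]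
    have hradR : (rad (a * (c - a) * c) : ℝ) * (x : ℝ) ^ (T + 1) ≤ A0 * c := by
      exact_mod_cast hrad
    have hxAR : (A0 : ℝ) * (K3 : ℝ) ^ k < x := by exact_mod_cast hxA
    have hxpos : (0 : ℝ) < x := by linarith
    have hcpos : (0 : ℝ) < c := by linarith
    have hfin : (rad (a * (c - a) * c) : ℝ) * Real.log c ^ k * (x : ℝ) ^ (T + 1) <
        c * (x : ℝ) ^ (T + 1) := by
      calc (rad (a * (c - a) * c) : ℝ) * Real.log c ^ k * (x : ℝ) ^ (T + 1)
          = (rad (a * (c - a) * c) : ℝ) * (x : ℝ) ^ (T + 1) * Real.log c ^ k := by ring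
        _ ≤ (A0 * c) * ((K3 : ℝ) ^ k * (x : ℝ) ^ (4 * k)) :=
            mul_le_mul hradR hpow (pow_nonneg hlog0 k) (by positivity)
        _ = (A0 * (K3 : ℝ) ^ k) * (c * (x : ℝ) ^ (4 * k)) := by ring
        _ < x * (c * (x : ℝ) ^ (4 * k)) := by
            refine mul_lt_mul_of_pos_right hxAR (by positivity)
        _ = c * (x : ℝ) ^ (4 * k + 1) := by ring
        _ ≤ c * (x : ℝ) ^ (T + 1) := by
            refine mul_le_mul_of_nonneg_left (pow_le_pow_right₀ hxR (by omega)) hcpos.le
    exact lt_of_mul_lt_mul_right hfin (by positivity)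

end Pool.Agent.H902A
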