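import Pool.Agent.H902A.Ser

set_option autoImplicit false

/-!
Products of powers of `1 + u X` as truncated exponentials.
-/

namespace Pool.Agent.H902A

open Finset

/-- truncated exponential of a power series -/
noncomputable def G (s : PowerSeries ℚ) (r : ℕ) : PowerSeries ℚ :=
  ∑ j ∈ range r, PowerSeries.C (1 / (j.factorial : ℚ)) * s ^ j

theorem G_succ (s : PowerSeries ℚ) (r : ℕ) :
    G s (r + 1) = G s r + PowerSeries.C (1 / (r.factorial : ℚ)) * s ^ r := by
  unfold G
  rw [Finset.sum_range_succ]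

theorem dG (s : PowerSeries ℚ) (r : ℕ) :
    PowerSeries.derivative ℚ (G s (r + 1)) = PowerSeries.derivative ℚ s * G s r := by
  induction r with
  | zero => simp [G]
  | succ r ih =>
    rw [G_succ, map_add, ih, G_succ s r, mul_add]
    congr 1
    rw [Derivation.leibniz, PowerSeries.derivative_C, smul_zero, add_zero, smul_eq_mul,
      PowerSeries.derivative_pow]
    have h : PowerSeries.C (1 / ((r + 1).factorial : ℚ)) * ((r + 1 : ℕ) : PowerSeries ℚ) =
        PowerSeries.C (1 / (r.factorial : ℚ)) := by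
      rw [← map_natCast (PowerSeries.C (R := ℚ)), ← map_mul]
      congr 1
      rw [Nat.factorial_succ]
      have h1 : (r.factorial : ℚ) ≠ 0 := by exact_mod_cast Nat.factorial_ne_zero r
      have h2 : ((r + 1 : ℕ) : ℚ) ≠ 0 := by positivity
      push_cast at h2 ⊢
      field_simp
    rw [Nat.add_sub_cancel]
    linear_combination s ^ r * PowerSeries.derivative ℚ s * h

/-- the product `∏ (1 + u_i X) ^ c_i` over a finite set of indices -/
noncomputable def Fs {T : ℕ} (u : Fin T → ℚ) (c : Fin T → ℕ) (I : Finset (Fin T)) :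
    PowerSeries ℚ := ∏ i ∈ I, (W (u i) : PowerSeries ℚ) ^ (c i)

theorem dpow (u : ℚ) (c : ℕ) :
    PowerSeries.derivative ℚ ((W u : PowerSeries ℚ) ^ c) =
      (W u : PowerSeries ℚ) ^ c * (PowerSeries.C (c : ℚ) * PowerSeries.derivative ℚ (L u)) := by
  rw [PowerSeries.derivative_pow, dW]
  cases c with
  | zero => simp
  | succ c =>
    rw [Nat.add_sub_cancel, pow_succ, ← dL u]
    have h : ((c + 1 : ℕ) : PowerSeries ℚ) = PowerSeries.C ((c + 1 : ℕ) : ℚ) := by
      rw [map_natCast]
    rw [h]
    ring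

theorem dFs {T : ℕ} (u : Fin T → ℚ) (c : Fin T → ℕ) (I : Finset (Fin T)) :
    PowerSeries.derivative ℚ (Fs u c I) = Fs u c I *
      PowerSeries.derivative ℚ (∑ i ∈ I, PowerSeries.C (c i : ℚ) * L (u i)) := by
  classical
  induction I using Finset.induction_on with
  | empty => simp [Fs]
  | insert a I ha ih =>
    have h1 : Fs u c (insert a I) = (W (u a) : PowerSeries ℚ) ^ (c a) * Fs u c I := by
      unfold Fs
      rw [Finset.prod_insert ha]
    rw [h1, Derivation.leibniz, ih, dpow, Finset.sum_insert ha, map_add,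
      Derivation.leibniz (PowerSeries.derivative ℚ) (PowerSeries.C (c a : ℚ)) (L (u a)),
      PowerSeries.derivative_C, smul_zero, add_zero]
    simp only [smul_eq_mul]
    ring

/-- the key identity -/
theorem key {T : ℕ} (u : Fin T → ℚ) (c : Fin T → ℕ) (r : ℕ) (n : ℕ) (hn : n < r + 1) :
    PowerSeries.coeff n (Fs u c univ -
      G (∑ i, PowerSeries.C (c i : ℚ) * L (u i)) (r + 1)) = 0 := by
  set s : PowerSeries ℚ := ∑ i, PowerSeries.C (c i : ℚ) * L (u i) with hs
  have hs0 : PowerSeries.constantCoeff s = 0 := by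
    rw [hs, map_sum]
    refine Finset.sum_eq_zero fun i _ => ?_
    rw [map_mul, ← PowerSeries.coeff_zero_eq_constantCoeff_apply (L (u i)), coeff_L]
    simp
  have hsX : (PowerSeries.X : PowerSeries ℚ) ∣ s := PowerSeries.X_dvd_iff.2 hs0
  have hd : PowerSeries.derivative ℚ (Fs u c univ - G s (r + 1)) =
      PowerSeries.derivative ℚ s * (Fs u c univ - G s (r + 1)) +
      PowerSeries.derivative ℚ s * (PowerSeries.C (1 / (r.factorial : ℚ)) * s ^ r) := by
    rw [map_sub, dFs, dG, G_succ]
    ring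
  induction n using Nat.strong_induction_on with
  | _ n ih =>
    cases n with
    | zero =>
      rw [map_sub]
      have h1 : PowerSeries.coeff 0 (Fs u c univ) = 1 := by
        rw [PowerSeries.coeff_zero_eq_constantCoeff_apply]
        unfold Fs
        rw [map_prod]
        refine Finset.prod_eq_one fun i _ => ?_
        rw [map_pow]
        have : PowerSeries.constantCoeff (W (u i) : PowerSeries ℚ) = 1 := by
          simp [W]
        rw [this, one_pow]
      have h2 : PowerSeries.coeff 0 (G s (r + 1)) = 1 := by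
        rw [PowerSeries.coeff_zero_eq_constantCoeff_apply]
        unfold G
        rw [map_sum, Finset.sum_range_succ']
        rw [Finset.sum_eq_zero]
        · simp
        · intro j _
          rw [map_mul, map_pow, hs0]
          simp
      rw [h1, h2, sub_self]
    | succ m =>
      have h1 := congrArg (PowerSeries.coeff m) hd
      rw [PowerSeries.coeff_derivative, map_add] at h1
      have h2 : PowerSeries.coeff m (PowerSeries.derivative ℚ s *
          (Fs u c univ - G s (r + 1))) = 0 := by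
        rw [PowerSeries.coeff_mul]
        refine Finset.sum_eq_zero fun p hp => ?_
        rw [Finset.HasAntidiagonal.mem_antidiagonal] at hp
        rw [ih p.2 (by omega) (by omega), mul_zero]
      have h3 : PowerSeries.coeff m (PowerSeries.derivative ℚ s *
          (PowerSeries.C (1 / (r.factorial : ℚ)) * s ^ r)) = 0 := by
        have h4 : (PowerSeries.X : PowerSeries ℚ) ^ r ∣ PowerSeries.derivative ℚ s *
          (PowerSeries.C (1 / (r.factorial : ℚ)) * s ^ r) :=
          ((pow_dvd_pow_of_dvd hsX r).mul_left _).mul_left _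
        rw [PowerSeries.X_pow_dvd_iff] at h4
        exact h4 m (by omega)
      rw [h2, h3, add_zero] at h1
      rcases mul_eq_zero.1 h1 with h5 | h5
      · exact h5
      · have : ((m : ℚ) + 1) ≠ 0 := by positivity
        exact absurd h5 this

/-- integer polynomials as power series over `ℚ` -/
noncomputable def phi : Polynomial ℤ →+* PowerSeries ℚ :=
  (Polynomial.coeToPowerSeries.ringHom).comp (Polynomial.mapRingHom (Int.castRingHom ℚ))

theorem coeff_phi (p : Polynomial ℤ) (n : ℕ) : PowerSeries.coeff n (phi p) = (p.coeff n : ℚ) := by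
  simp [phi]

theorem phi_C (a : ℤ) : phi (Polynomial.C a) = PowerSeries.C (a : ℚ) := by
  simp [phi]

theorem phi_X : phi Polynomial.X = PowerSeries.X := by
  simp [phi]

theorem dvd_of_phi {p : Polynomial ℤ} {r : ℕ} (h : (PowerSeries.X : PowerSeries ℚ) ^ r ∣ phi p) :
    (Polynomial.X : Polynomial ℤ) ^ r ∣ p := by
  rw [Polynomial.X_pow_dvd_iff]
  rw [PowerSeries.X_pow_dvd_iff] at h
  intro n hn
  have := h n hn
  rw [coeff_phi] at this
  exact_mod_cast this

/-- `r!` times the truncated logarithm -/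
noncomputable def l (r : ℕ) (u : ℤ) : Polynomial ℤ :=
  ∑ n ∈ range r, Polynomial.C (if n = 0 then 0 else ((r.factorial / n : ℕ) : ℤ) * (-1) ^ (n + 1) *
    u ^ n) * Polynomial.X ^ n

theorem coeff_l (r : ℕ) (u : ℤ) (n : ℕ) (hn : n < r) :
    (l r u).coeff n = if n = 0 then 0 else ((r.factorial / n : ℕ) : ℤ) * (-1) ^ (n + 1) *
    u ^ n := by
  unfold l
  rw [Polynomial.finsetSum_coeff]
  rw [Finset.sum_eq_single n]
  · rw [Polynomial.coeff_C_mul, Polynomial.coeff_X_pow, if_pos rfl, mul_one]
  · intro m _ hm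
    rw [Polynomial.coeff_C_mul, Polynomial.coeff_X_pow, if_neg (Ne.symm hm), mul_zero]
  · intro h
    exact absurd (Finset.mem_range.2 hn) h

theorem l_dvd (r : ℕ) (u : ℤ) : (PowerSeries.X : PowerSeries ℚ) ^ r ∣
    phi (l r u) - PowerSeries.C (r.factorial : ℚ) * L (u : ℚ) := by
  rw [PowerSeries.X_pow_dvd_iff]
  intro n hn
  rw [map_sub, coeff_phi, coeff_l r u n hn, PowerSeries.coeff_C_mul, coeff_L]
  by_cases h0 : n = 0
  · simp [h0]
  · rw [if_neg h0, if_neg h0]
    have hd : n ∣ r.factorial := Nat.dvd_factorial (Nat.pos_of_ne_zero h0) hn.le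
    have hn0 : (n : ℚ) ≠ 0 := by exact_mod_cast h0
    have h1 : (((r.factorial / n : ℕ) : ℤ) : ℚ) = (r.factorial : ℚ) / n := by
      rw [Int.cast_natCast, Nat.cast_div hd hn0]
    rw [Int.cast_mul, Int.cast_mul, h1]
    push_cast
    field_simp
    ring

theorem sum_dvd {T : ℕ} (r : ℕ) (u : Fin T → ℤ) (E : Fin T → Polynomial ℤ)
    (h : ∀ n, n < r → PowerSeries.coeff n (∑ i, phi (E i) * L (u i : ℚ)) = 0) :
    (Polynomial.X : Polynomial ℤ) ^ r ∣ ∑ i, E i * l r (u i) := by
  apply dvd_of_phi
  rw [map_sum]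
  have h1 : (PowerSeries.X : PowerSeries ℚ) ^ r ∣ PowerSeries.C (r.factorial : ℚ) *
      ∑ i, phi (E i) * L (u i : ℚ) := by
    apply Dvd.dvd.mul_left
    rw [PowerSeries.X_pow_dvd_iff]
    exact h
  have h2 : (PowerSeries.X : PowerSeries ℚ) ^ r ∣
      ∑ i, phi (E i) * (phi (l r (u i)) - PowerSeries.C (r.factorial : ℚ) * L (u i : ℚ)) :=
    Finset.dvd_sum fun i _ => (l_dvd r (u i)).mul_left _
  have h3 := dvd_add h2 h1
  convert h3 using 1
  rw [Finset.mul_sum, ← Finset.sum_add_distrib]
  refine Finset.sum_congr rfl fun i _ => ?_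
  rw [map_mul]
  ring

/-- the main divisibility: if the combination of logarithms vanishes to order `r`, the product of
the powers with exponents `(r!) ^ 2 E_i(x)` is `1` modulo `x ^ r` -/
theorem exp_dvd {T : ℕ} (r : ℕ) (hr : 1 ≤ r) (u : Fin T → ℤ) (E : Fin T → Polynomial ℤ)
    (h : ∀ n, n < r → PowerSeries.coeff n (∑ i, phi (E i) * L (u i : ℚ)) = 0) (x : ℤ)
    (c : Fin T → ℕ) (hc : ∀ i, (c i : ℤ) = (r.factorial : ℤ) ^ 2 * (E i).eval x) :
    x ^ r ∣ ∏ i, (1 + u i * x) ^ (c i) - 1 := by
  obtain ⟨r, rfl⟩ : ∃ r', r = r' + 1 := ⟨r - 1, by omega⟩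
  set R : ℕ := r + 1 with hR
  -- the polynomial `S'`
  set S' : Polynomial ℤ := ∑ i, Polynomial.C ((E i).eval x) * l R (u i) with hS'
  have hS'x : x ^ R ∣ S'.eval x := by
    obtain ⟨q, hq⟩ := sum_dvd R u E h
    have h1 := congrArg (Polynomial.eval x) hq
    rw [Polynomial.eval_finsetSum, Polynomial.eval_mul, Polynomial.eval_pow, Polynomial.eval_X]
      at h1
    refine ⟨q.eval x, ?_⟩
    rw [← h1, hS', Polynomial.eval_finsetSum]
    refine Finset.sum_congr rfl fun i _ => ?_
    rw [Polynomial.eval_mul, Polynomial.eval_mul, Polynomial.eval_C]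
  -- comparison of `s` and `R! S'`
  set s : PowerSeries ℚ := ∑ i, PowerSeries.C (c i : ℚ) * L (u i : ℚ) with hs
  have hsS : (PowerSeries.X : PowerSeries ℚ) ^ R ∣
      s - PowerSeries.C (R.factorial : ℚ) * phi S' := by
    have h2 : (PowerSeries.X : PowerSeries ℚ) ^ R ∣
        ∑ i, PowerSeries.C ((R.factorial : ℚ) * (((E i).eval x : ℤ) : ℚ)) *
          (phi (l R (u i)) - PowerSeries.C (R.factorial : ℚ) * L (u i : ℚ)) :=
      Finset.dvd_sum fun i _ => (l_dvd R (u i)).mul_left _
    have h3 := (dvd_neg (α := PowerSeries ℚ)).2 h2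
    convert h3 using 1
    rw [hs, hS', map_sum, Finset.mul_sum, ← Finset.sum_sub_distrib, ← Finset.sum_neg_distrib]
    refine Finset.sum_congr rfl fun i _ => ?_
    have h4 : (c i : ℚ) = (R.factorial : ℚ) ^ 2 * (((E i).eval x : ℤ) : ℚ) := by
      exact_mod_cast hc i
    rw [h4, map_mul phi, phi_C, map_mul, map_mul, map_pow]
    ring
  -- the integer polynomials
  set F : Polynomial ℤ := ∏ i, (1 + Polynomial.C (u i) * Polynomial.X) ^ (c i) with hF
  set GZ : Polynomial ℤ := ∑ j ∈ range R,
    Polynomial.C (((R.factorial ^ j / j.factorial : ℕ) : ℤ)) * S' ^ j with hGZ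
  have hphiF : phi F = Fs (fun i => (u i : ℚ)) c univ := by
    rw [hF, map_prod]
    unfold Fs
    refine Finset.prod_congr rfl fun i _ => ?_
    rw [map_pow, map_add, map_one, map_mul, phi_C, phi_X, W, Polynomial.coe_add,
      Polynomial.coe_one, Polynomial.coe_mul, Polynomial.coe_C, Polynomial.coe_X]
  have hphiG : (PowerSeries.X : PowerSeries ℚ) ^ R ∣ G s R - phi GZ := by
    have h2 : (PowerSeries.X : PowerSeries ℚ) ^ R ∣ ∑ j ∈ range R,
        PowerSeries.C (1 / (j.factorial : ℚ)) *
          (s ^ j - (PowerSeries.C (R.factorial : ℚ) * phi S') ^ j) :=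
      Finset.dvd_sum fun j _ => (hsS.trans (sub_dvd_pow_sub_pow _ _ j)).mul_left _
    convert h2 using 1
    rw [hGZ, map_sum, G, ← Finset.sum_sub_distrib]
    refine Finset.sum_congr rfl fun j hj => ?_
    rw [map_mul phi, phi_C, map_pow, mul_sub, mul_pow]
    congr 1
    have hdvd : j.factorial ∣ R.factorial ^ j := by
      rcases Nat.eq_zero_or_pos j with h0 | h0
      · subst h0
        simp
      · exact (Nat.factorial_dvd_factorial (Finset.mem_range.1 hj).le).trans
          (dvd_pow_self _ h0.ne')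
    have hj0 : (j.factorial : ℚ) ≠ 0 := by exact_mod_cast Nat.factorial_ne_zero j
    rw [← map_pow (PowerSeries.C (R := ℚ)), ← mul_assoc, ← map_mul]
    congr 2
    have h7 : (((R.factorial ^ j / j.factorial : ℕ) : ℤ) : ℚ) =
        (R.factorial : ℚ) ^ j / j.factorial := by
      rw [Int.cast_natCast, Nat.cast_div hdvd hj0, Nat.cast_pow]
    rw [h7]
    field_simp
  have hdiv : (Polynomial.X : Polynomial ℤ) ^ R ∣ F - GZ := by
    apply dvd_of_phi
    rw [map_sub, hphiF]
    have h5 : (PowerSeries.X : PowerSeries ℚ) ^ R ∣ Fs (fun i => (u i : ℚ)) c univ - G s R := by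
      rw [PowerSeries.X_pow_dvd_iff]
      intro n hn
      exact key (fun i => (u i : ℚ)) c r n hn
    have h6 := dvd_add h5 hphiG
    rwa [sub_add_sub_cancel] at h6
  have hx : x ^ R ∣ F.eval x - GZ.eval x := by
    obtain ⟨q, hq⟩ := hdiv
    refine ⟨q.eval x, ?_⟩
    rw [← Polynomial.eval_sub, hq, Polynomial.eval_mul, Polynomial.eval_pow, Polynomial.eval_X]
  have hG1 : x ^ R ∣ GZ.eval x - 1 := by
    rw [hGZ, hR, Finset.sum_range_succ', Polynomial.eval_add, Polynomial.eval_finsetSum]
    simp only [pow_zero, Nat.factorial_zero, Nat.div_one, Nat.cast_one, Polynomial.C_1, mul_one,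
      Polynomial.eval_one, add_sub_cancel_right]
    refine Finset.dvd_sum fun j _ => ?_
    rw [Polynomial.eval_mul, Polynomial.eval_pow]
    exact (hS'x.trans (dvd_pow_self _ (Nat.succ_ne_zero j))).mul_left _
  have hFx : F.eval x = ∏ i, (1 + u i * x) ^ (c i) := by
    rw [hF, Polynomial.eval_prod]
    refine Finset.prod_congr rfl fun i _ => ?_
    simp
  rw [← hFx]
  have := dvd_add hx hG1
  rwa [sub_add_sub_cancel] at this

end Pool.Agent.H902A
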