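import Pool.Agent.H902A.Ser

set_option autoImplicit false

/-!
Existence of polynomial vectors of degree three with prescribed leading coefficients.
-/

namespace Pool.Agent.H902A

open Finset

theorem S_add {T : ℕ} (u : Fin T → ℚ) (e f : Fin T → Polynomial ℚ) :
    S u (fun i => e i + f i) = S u e + S u f := by
  unfold S
  rw [← Finset.sum_add_distrib]
  refine Finset.sum_congr rfl fun i _ => ?_
  rw [Polynomial.coe_add, add_mul]

theorem S_smul {T : ℕ} (u : Fin T → ℚ) (c : ℚ) (e : Fin T → Polynomial ℚ) :
    S u (fun i => Polynomial.C c * e i) = PowerSeries.C c * S u e := by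
  unfold S
  rw [Finset.mul_sum]
  refine Finset.sum_congr rfl fun i _ => ?_
  rw [Polynomial.coe_mul, Polynomial.coe_C, mul_assoc]

theorem S_X {T : ℕ} (u : Fin T → ℚ) (e : Fin T → Polynomial ℚ) :
    S u (fun i => Polynomial.X * e i) = PowerSeries.X * S u e := by
  unfold S
  rw [Finset.mul_sum]
  refine Finset.sum_congr rfl fun i _ => ?_
  rw [Polynomial.coe_mul, Polynomial.coe_X, mul_assoc]

theorem coeff_zero_S {T : ℕ} (u : Fin T → ℚ) (e : Fin T → Polynomial ℚ) :
    PowerSeries.coeff 0 (S u e) = 0 := by
  unfold S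
  rw [map_sum]
  refine Finset.sum_eq_zero fun i _ => ?_
  rw [PowerSeries.coeff_zero_eq_constantCoeff_apply, map_mul,
    ← PowerSeries.coeff_zero_eq_constantCoeff_apply (L (u i)), coeff_L]
  simp

/-- the linear part -/
noncomputable def lin {T : ℕ} (a b : Fin T → ℚ) (i : Fin T) : Polynomial ℚ :=
  Polynomial.C (a i) + Polynomial.C (b i) * Polynomial.X

theorem lin_add {T : ℕ} (a b a' b' : Fin T → ℚ) :
    lin (a + a') (b + b') = fun i => lin a b i + lin a' b' i := by
  funext i
  simp only [lin, Pi.add_apply, Polynomial.C_add]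
  ring

theorem lin_smul {T : ℕ} (c : ℚ) (a b : Fin T → ℚ) :
    lin (c • a) (c • b) = fun i => Polynomial.C c * lin a b i := by
  funext i
  simp only [lin, Pi.smul_apply, smul_eq_mul, Polynomial.C_mul]
  ring

/-- the coefficients of index `2, …, 2 T + 1` -/
noncomputable def Phi {T : ℕ} (u : Fin T → ℚ) :
    ((Fin T → ℚ) × (Fin T → ℚ)) →ₗ[ℚ] (Fin (2 * T) → ℚ) where
  toFun p := fun n => PowerSeries.coeff (n.1 + 2) (S u (lin p.1 p.2))
  map_add' p q := by
    funext n
    rw [Prod.fst_add, Prod.snd_add, lin_add, S_add]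
    simp
  map_smul' c p := by
    funext n
    rw [Prod.smul_fst, Prod.smul_snd, lin_smul, S_smul]
    simp [PowerSeries.coeff_C_mul]

theorem Phi_surj {T : ℕ} (u : Fin T → ℚ) (hu : ∀ i, u i ≠ 0) (hinj : Function.Injective u) :
    Function.Surjective (Phi u) := by
  rw [← LinearMap.injective_iff_surjective_of_finrank_eq_finrank]
  · rw [injective_iff_map_eq_zero]
    intro p hp
    have h := inj u hu hinj p.1 p.2 (fun n h2 hn => by
      have h3 := congrFun hp ⟨n - 2, by omega⟩
      have h4 : n - 2 + 2 = n := by omega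
      change PowerSeries.coeff (n - 2 + 2) (S u (lin p.1 p.2)) = 0 at h3
      rw [h4] at h3
      exact h3)
    exact Prod.ext h.1 h.2
  · simp [two_mul]

/-- the coefficients of index `2, …, 2 T + 1` vanish -/
def Good {T : ℕ} (u : Fin T → ℚ) (e : Fin T → Polynomial ℚ) : Prop :=
  ∀ n, 2 ≤ n → n ≤ 2 * T + 1 → PowerSeries.coeff n (S u e) = 0

theorem exists_good {T : ℕ} (u : Fin T → ℚ) (hu : ∀ i, u i ≠ 0) (hinj : Function.Injective u)
    (f : Fin T → Polynomial ℚ) : ∃ a b : Fin T → ℚ, Good u (fun i => lin a b i + f i) := by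
  obtain ⟨p, hp⟩ := Phi_surj u hu hinj (fun n => - PowerSeries.coeff (n.1 + 2) (S u f))
  refine ⟨p.1, p.2, fun n h2 hn => ?_⟩
  rw [S_add, map_add]
  have h3 := congrFun hp ⟨n - 2, by omega⟩
  have h4 : n - 2 + 2 = n := by omega
  change PowerSeries.coeff (n - 2 + 2) (S u (lin p.1 p.2)) =
    - PowerSeries.coeff (n - 2 + 2) (S u f) at h3
  rw [h4] at h3
  rw [h3]
  ring

theorem natDegree_lin {T : ℕ} (a b : Fin T → ℚ) (i : Fin T) : (lin a b i).natDegree ≤ 1 := by
  unfold lin
  compute_degree

/-- for every `v` there is a vector of polynomials of degree at most `3`, with coefficients `v` of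
`X ^ 3`, for which the combination of logarithms vanishes to order `2 T + 2` -/
theorem exists_vec {T : ℕ} (u : Fin T → ℚ) (hu : ∀ i, u i ≠ 0) (hinj : Function.Injective u)
    (v : Fin T → ℚ) : ∃ e : Fin T → Polynomial ℚ, (∀ i, (e i).natDegree ≤ 3) ∧
      (∀ i, (e i).coeff 3 = v i) ∧ ∀ n, n < 2 * T + 2 → PowerSeries.coeff n (S u e) = 0 := by
  by_cases hc : ∃ e0 : Fin T → Polynomial ℚ, (∀ i, (e0 i).natDegree ≤ 2) ∧ Good u e0 ∧
      PowerSeries.coeff 1 (S u e0) ≠ 0
  · obtain ⟨e0, hdeg, hgood, hne⟩ := hc
    obtain ⟨a, b, hab⟩ := exists_good u hu hinj (fun i => Polynomial.C (v i) * Polynomial.X ^ 3)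
    set e : Fin T → Polynomial ℚ := fun i => lin a b i + Polynomial.C (v i) * Polynomial.X ^ 3
      with he
    set c : ℚ := - (PowerSeries.coeff 1 (S u e) / PowerSeries.coeff 1 (S u e0)) with hcdef
    refine ⟨fun i => e i + Polynomial.C c * e0 i, ?_, ?_, ?_⟩
    · intro i
      refine (Polynomial.natDegree_add_le _ _).trans (max_le ?_ ?_)
      · refine (Polynomial.natDegree_add_le _ _).trans (max_le ?_ ?_)
        · exact (natDegree_lin a b i).trans (by norm_num)
        · compute_degree
      · exact (Polynomial.natDegree_C_mul_le _ _).trans ((hdeg i).trans (by norm_num))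
    · intro i
      rw [Polynomial.coeff_add, Polynomial.coeff_C_mul,
        Polynomial.coeff_eq_zero_of_natDegree_lt (lt_of_le_of_lt (hdeg i) (by norm_num)), he]
      simp only [Polynomial.coeff_add]
      rw [Polynomial.coeff_eq_zero_of_natDegree_lt
        (lt_of_le_of_lt (natDegree_lin a b i) (by norm_num))]
      simp
    · intro n hn
      rw [S_add, S_smul, map_add, PowerSeries.coeff_C_mul]
      rcases Nat.lt_or_ge n 2 with h2 | h2
      · interval_cases n
        · rw [coeff_zero_S, coeff_zero_S]
          ring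
        · rw [hcdef]
          field_simp
          ring
      · rw [hab n h2 (by omega), hgood n h2 (by omega)]
        ring
  · push Not at hc
    obtain ⟨a, b, hab⟩ := exists_good u hu hinj (fun i => Polynomial.C (v i) * Polynomial.X ^ 2)
    set e : Fin T → Polynomial ℚ := fun i => lin a b i + Polynomial.C (v i) * Polynomial.X ^ 2
      with he
    have hdeg : ∀ i, (e i).natDegree ≤ 2 := by
      intro i
      refine (Polynomial.natDegree_add_le _ _).trans (max_le ?_ ?_)
      · exact (natDegree_lin a b i).trans (by norm_num)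
      · compute_degree
    have h1 := hc e hdeg hab
    refine ⟨fun i => Polynomial.X * e i, ?_, ?_, ?_⟩
    · intro i
      refine (Polynomial.natDegree_mul_le).trans ?_
      have h2 := hdeg i
      have h3 : (Polynomial.X : Polynomial ℚ).natDegree ≤ 1 := Polynomial.natDegree_X_le
      omega
    · intro i
      rw [show (3 : ℕ) = 2 + 1 by norm_num, Polynomial.coeff_X_mul, he]
      simp only [Polynomial.coeff_add]
      rw [Polynomial.coeff_eq_zero_of_natDegree_lt
        (lt_of_le_of_lt (natDegree_lin a b i) (by norm_num))]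
      simp
    · intro n hn
      rw [S_X]
      cases n with
      | zero => simp
      | succ n =>
        rw [PowerSeries.coeff_succ_X_mul]
        rcases Nat.lt_or_ge n 2 with h2 | h2
        · interval_cases n
          · exact coeff_zero_S _ _
          · exact h1
        · exact hab n h2 (by omega)

end Pool.Agent.H902A
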