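import Mathlib

set_option autoImplicit false

/-!
`1 + a x` generates the residues `≡ 1 (mod x)` modulo powers of an odd `x` prime to `a`.
-/

namespace Pool.Agent.H902A

theorem pow_exp3 (h : ℤ) (n : ℕ) : ∃ q : ℤ, (1 + h) ^ n = 1 + n * h + (n.choose 2 : ℕ) * h ^ 2 +
    h ^ 3 * q := by
  induction n with
  | zero => exact ⟨0, by simp⟩
  | succ n ih =>
    obtain ⟨q, hq⟩ := ih
    refine ⟨(n.choose 2 : ℕ) + (1 + h) * q, ?_⟩
    have hc : (n + 1).choose 2 = n + n.choose 2 := by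
      rw [Nat.choose_succ_succ' n 1, Nat.choose_one_right]
    rw [pow_succ, hq, hc]
    push_cast
    ring

theorem pow_exp2 (h : ℤ) (n : ℕ) : ∃ q : ℤ, (1 + h) ^ n = 1 + n * h + h ^ 2 * q := by
  obtain ⟨q, hq⟩ := pow_exp3 h n
  exact ⟨(n.choose 2 : ℕ) + h * q, by rw [hq]; ring⟩

theorem lte (a : ℤ) (x : ℕ) (hx : Odd x) (t : ℕ) :
    ∃ q : ℤ, (1 + a * x) ^ (x ^ t) = 1 + a * (x : ℤ) ^ (t + 1) + (x : ℤ) ^ (t + 2) * q := by
  induction t with
  | zero => exact ⟨0, by simp⟩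
  | succ t ih =>
    obtain ⟨q, hq⟩ := ih
    obtain ⟨k, hk⟩ := hx
    have hc : x.choose 2 = x * k := by
      rw [Nat.choose_two_right, hk, show 2 * k + 1 - 1 = 2 * k by omega,
        show (2 * k + 1) * (2 * k) = 2 * ((2 * k + 1) * k) by ring]
      omega
    obtain ⟨q3, hq3⟩ := pow_exp3 ((x : ℤ) ^ (t + 1) * (a + x * q)) x
    have h1 : (1 + a * (x : ℤ)) ^ (x ^ (t + 1)) =
        (1 + (x : ℤ) ^ (t + 1) * (a + x * q)) ^ x := by
      rw [pow_succ, pow_mul, hq]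
      congr 1
      ring
    refine ⟨q + (x : ℤ) ^ t * k * (a + x * q) ^ 2 + (x : ℤ) ^ (2 * t) * (a + x * q) ^ 3 * q3, ?_⟩
    rw [h1, hq3, hc]
    push_cast
    ring

theorem exists_mul_add (a x : ℕ) (hx : 0 < x) (hax : Nat.Coprime a x) (z : ℤ) :
    ∃ m : ℕ, (x : ℤ) ∣ m * a + z := by
  have h := Nat.isCoprime_iff_coprime.2 hax
  obtain ⟨p, q, hpq⟩ := h
  have hx' : (0 : ℤ) < x := by exact_mod_cast hx
  refine ⟨((-z * p) % x).toNat, ?_⟩
  rw [Int.toNat_of_nonneg (Int.emod_nonneg _ hx'.ne')]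
  have h1 := Int.emod_add_mul_ediv (-z * p) x
  refine ⟨z * q - (-z * p / x) * a, ?_⟩
  linear_combination (a : ℤ) * h1 - z * hpq

theorem gen (a x : ℕ) (hx : Odd x) (hax : Nat.Coprime a x) (y : ℤ) (hy : (x : ℤ) ∣ y - 1)
    (s : ℕ) : ∃ n : ℕ, (x : ℤ) ^ (s + 1) ∣ (1 + a * x) ^ n - y := by
  induction s with
  | zero =>
    refine ⟨0, ?_⟩
    rw [pow_zero, zero_add, pow_one]
    have := (dvd_neg (α := ℤ)).2 hy
    rwa [neg_sub] at this
  | succ s ih =>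
    obtain ⟨n, z, hz⟩ := ih
    obtain ⟨m, w, hw⟩ := exists_mul_add a x hx.pos hax z
    obtain ⟨q, hq⟩ := lte (a : ℤ) x hx s
    obtain ⟨q2, hq2⟩ := pow_exp2 ((x : ℤ) ^ (s + 1) * (a + x * q)) m
    obtain ⟨v, hv⟩ := hy
    have h1 : (1 + (a : ℤ) * x) ^ (n + x ^ s * m) = (y + (x : ℤ) ^ (s + 1) * z) *
        (1 + m * ((x : ℤ) ^ (s + 1) * (a + x * q)) +
          ((x : ℤ) ^ (s + 1) * (a + x * q)) ^ 2 * q2) := by
      rw [pow_add, pow_mul, ← hq2]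
      congr 1
      · linarith
      · rw [hq]
        congr 1
        ring
    refine ⟨n + x ^ s * m, ?_⟩
    rw [h1]
    have hy' : y = 1 + x * v := by linarith
    -- expand
    refine ⟨w + v * m * a + (1 + x * v) * m * q + (x : ℤ) ^ s * z * m * (a + x * q) +
      (1 + x * v + (x : ℤ) ^ (s + 1) * z) * ((x : ℤ) ^ s * (a + x * q) ^ 2 * q2), ?_⟩
    rw [hy']
    linear_combination (x : ℤ) ^ (s + 1) * hw

end Pool.Agent.H902A
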