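import Pool.Agent.H902A.Lat
import Pool.Agent.H902A.Gen

set_option autoImplicit false

/-!
Positive exponents of size `x ^ 3` for prescribed residues.
-/

namespace Pool.Agent.H902A

open Finset

/-- reduction of an integer vector modulo a nearly diagonal lattice -/
theorem reduce {T : ℕ} (M : Matrix (Fin T) (Fin T) ℤ) (B : ℤ)
    (hB : ∀ i j, |M i j| ≤ B)
    (hdiag : ∀ i, ∑ j ∈ univ.erase i, |M i j| < |M i i|) (w : Fin T → ℤ) :
    ∃ t : Fin T → ℤ, ∀ i, 1 ≤ w i - ∑ j, M i j * t j ∧ w i - ∑ j, M i j * t j ≤ 1 + 2 * T * B := by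
  set A : Matrix (Fin T) (Fin T) ℝ := M.map (fun z : ℤ => (z : ℝ)) with hA
  have hdet : A.det ≠ 0 := by
    apply det_ne_zero_of_sum_row_lt_diag
    intro i
    have h1 := hdiag i
    simp only [hA, Matrix.map_apply, Real.norm_eq_abs]
    exact_mod_cast h1
  set z : Fin T → ℝ := fun i => (w i : ℝ) - (1 + T * B) with hz
  set τ : Fin T → ℝ := A⁻¹.mulVec z with hτ
  have hAτ : A.mulVec τ = z := by
    rw [hτ, Matrix.mulVec_mulVec, Matrix.mul_nonsing_inv _ (isUnit_iff_ne_zero.2 hdet),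
      Matrix.one_mulVec]
  refine ⟨fun j => ⌊τ j⌋, fun i => ?_⟩
  have h1 : ∑ j, (M i j : ℝ) * τ j = (w i : ℝ) - (1 + T * B) := by
    have := congrFun hAτ i
    simpa [Matrix.mulVec, dotProduct, hA] using this
  have h2 : |∑ j, (M i j : ℝ) * (τ j - ⌊τ j⌋)| ≤ T * B := by
    calc |∑ j, (M i j : ℝ) * (τ j - ⌊τ j⌋)| ≤ ∑ j, |(M i j : ℝ) * (τ j - ⌊τ j⌋)| :=
          Finset.abs_sum_le_sum_abs _ _
      _ ≤ ∑ _j : Fin T, (B : ℝ) := by
          refine Finset.sum_le_sum fun j _ => ?_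
          rw [abs_mul]
          have h3 : |(M i j : ℝ)| ≤ B := by exact_mod_cast hB i j
          have h4 : |τ j - ⌊τ j⌋| ≤ 1 := by
            rw [abs_of_nonneg (by linarith [Int.floor_le (τ j)])]
            linarith [Int.lt_floor_add_one (τ j)]
          calc |(M i j : ℝ)| * |τ j - ⌊τ j⌋| ≤ |(M i j : ℝ)| * 1 :=
                mul_le_mul_of_nonneg_left h4 (abs_nonneg _)
            _ ≤ B := by linarith
      _ = T * B := by simp
  have h3 : (w i : ℝ) - ∑ j, (M i j : ℝ) * ⌊τ j⌋ =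
      1 + T * B + ∑ j, (M i j : ℝ) * (τ j - ⌊τ j⌋) := by
    have h4 : ∑ j, (M i j : ℝ) * (τ j - ⌊τ j⌋) =
        ∑ j, (M i j : ℝ) * τ j - ∑ j, (M i j : ℝ) * ⌊τ j⌋ := by
      rw [← Finset.sum_sub_distrib]
      refine Finset.sum_congr rfl fun j _ => ?_
      ring
    rw [h4, h1]
    ring
  rw [abs_le] at h2
  have h5 : ((w i - ∑ j, M i j * ⌊τ j⌋ : ℤ) : ℝ) = (w i : ℝ) - ∑ j, (M i j : ℝ) * ⌊τ j⌋ := by
    push_cast
    ring
  constructor
  · have : ((1 : ℤ) : ℝ) ≤ ((w i - ∑ j, M i j * ⌊τ j⌋ : ℤ) : ℝ) := by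
      rw [h5, h3]
      push_cast
      linarith [h2.1]
    exact_mod_cast this
  · have : ((w i - ∑ j, M i j * ⌊τ j⌋ : ℤ) : ℝ) ≤ ((1 + 2 * T * B : ℤ) : ℝ) := by
      rw [h5, h3]
      push_cast
      linarith [h2.2]
    exact_mod_cast this

theorem zpow_sum' {G : Type*} [CommGroup G] {ι : Type*} (I : Finset ι) (g : G) (f : ι → ℤ) :
    g ^ (∑ j ∈ I, f j) = ∏ j ∈ I, g ^ (f j) := by
  classical
  induction I using Finset.induction_on with
  | empty => simp
  | insert a I ha ih => rw [Finset.sum_insert ha, Finset.prod_insert ha, zpow_add, ih]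

/-- every product of the units is a product with exponents between `1` and `K x ^ 3` -/
theorem small_exponents {T : ℕ} (u : Fin T → ℤ) (hu : ∀ i, u i ≠ 0)
    (hinj : Function.Injective u) : ∃ K x0 : ℕ, ∀ x : ℕ, x0 ≤ x →
      ∀ U : Fin T → (ZMod (x ^ (2 * T + 2)))ˣ,
      (∀ i, (U i : ZMod (x ^ (2 * T + 2))) = ((1 + u i * x : ℤ) : ZMod (x ^ (2 * T + 2)))) →
      ∀ w : Fin T → ℤ, ∃ f : Fin T → ℕ, (∀ i, 1 ≤ f i ∧ f i ≤ K * x ^ 3) ∧
        ∏ i, U i ^ (f i) = ∏ i, U i ^ (w i) := by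
  obtain ⟨Q, x0, hQdeg, hQoff, hQdiag, hQ⟩ := lattice u hu hinj
  set S2 : ℤ := ∑ i, ∑ j, (|(Q i j).coeff 0| + |(Q i j).coeff 1| + |(Q i j).coeff 2|) with hS2
  set S3 : ℤ := ∑ i, ∑ j, |(Q i j).coeff 3| with hS3
  have hS2nn : 0 ≤ S2 := Finset.sum_nonneg fun i _ => Finset.sum_nonneg fun j _ => by positivity
  have hS3nn : 0 ≤ S3 := Finset.sum_nonneg fun i _ => Finset.sum_nonneg fun j _ => by positivity
  have h2 : ∀ i j, |(Q i j).coeff 0| + |(Q i j).coeff 1| + |(Q i j).coeff 2| ≤ S2 := by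
    intro i j
    refine le_trans (Finset.single_le_sum (f := fun j => |(Q i j).coeff 0| + |(Q i j).coeff 1| +
      |(Q i j).coeff 2|) (fun j _ => by positivity) (Finset.mem_univ j)) ?_
    exact Finset.single_le_sum (f := fun i => ∑ j, (|(Q i j).coeff 0| + |(Q i j).coeff 1| +
      |(Q i j).coeff 2|)) (fun i _ => Finset.sum_nonneg fun j _ => by positivity)
      (Finset.mem_univ i)
  have h3 : ∀ i j, |(Q i j).coeff 3| ≤ S3 := by
    intro i j
    refine le_trans (Finset.single_le_sum (f := fun j => |(Q i j).coeff 3|)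
      (fun j _ => by positivity) (Finset.mem_univ j)) ?_
    exact Finset.single_le_sum (f := fun i => ∑ j, |(Q i j).coeff 3|)
      (fun i _ => Finset.sum_nonneg fun j _ => by positivity) (Finset.mem_univ i)
  refine ⟨(1 + 2 * T * (S2 + S3)).toNat, x0 + 1 + ((T + 1) * S2 + 1).toNat, ?_⟩
  intro x hx U hU w
  have hx1 : (1 : ℤ) ≤ x := by
    have : 1 ≤ x := by omega
    exact_mod_cast this
  have hxS : (T + 1) * S2 + 1 ≤ x := by
    have : ((T + 1) * S2 + 1).toNat ≤ x := by omega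
    exact Int.toNat_le.1 this
  have hx3 : (x : ℤ) ^ 2 ≤ (x : ℤ) ^ 3 := pow_le_pow_right₀ hx1 (by norm_num)
  have hx2pos : (0 : ℤ) < (x : ℤ) ^ 2 := by positivity
  set M : Matrix (Fin T) (Fin T) ℤ := fun i j => (Q i j).eval (x : ℤ) with hM
  have hev : ∀ i j, |M i j - (Q i j).coeff 3 * x ^ 3| ≤ S2 * x ^ 2 := by
    intro i j
    refine (evb _ (hQdeg i j) _ hx1).trans ?_
    exact mul_le_mul_of_nonneg_right (h2 i j) hx2pos.le
  have hB : ∀ i j, |M i j| ≤ (S2 + S3) * x ^ 3 := by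
    intro i j
    calc |M i j| = |(M i j - (Q i j).coeff 3 * x ^ 3) + (Q i j).coeff 3 * x ^ 3| := by
          congr 1; ring
      _ ≤ |M i j - (Q i j).coeff 3 * x ^ 3| + |(Q i j).coeff 3 * x ^ 3| := abs_add_le _ _
      _ ≤ S2 * x ^ 2 + S3 * x ^ 3 := by
          refine add_le_add (hev i j) ?_
          rw [abs_mul, abs_of_nonneg (by positivity : (0 : ℤ) ≤ (x : ℤ) ^ 3)]
          exact mul_le_mul_of_nonneg_right (h3 i j) (by positivity)
      _ ≤ (S2 + S3) * x ^ 3 := by nlinarith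
  have hdiag : ∀ i, ∑ j ∈ univ.erase i, |M i j| < |M i i| := by
    intro i
    have h4 : ∑ j ∈ univ.erase i, |M i j| ≤ T * (S2 * x ^ 2) := by
      calc ∑ j ∈ univ.erase i, |M i j| ≤ ∑ _j ∈ univ.erase i, S2 * x ^ 2 := by
            refine Finset.sum_le_sum fun j hj => ?_
            have h5 := hev i j
            rw [hQoff i j (Finset.ne_of_mem_erase hj).symm, zero_mul, sub_zero] at h5
            exact h5
        _ ≤ ∑ _j : Fin T, S2 * x ^ 2 :=
            Finset.sum_le_sum_of_subset_of_nonneg (Finset.erase_subset _ _)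
              (fun _ _ _ => by positivity)
        _ = T * (S2 * x ^ 2) := by simp
    have h6 : (x : ℤ) ^ 3 - S2 * x ^ 2 ≤ M i i := by
      have h7 := hev i i
      rw [abs_le] at h7
      have h8 : (x : ℤ) ^ 3 ≤ (Q i i).coeff 3 * x ^ 3 := by
        have := hQdiag i
        have h9 : (0 : ℤ) < (x : ℤ) ^ 3 := by positivity
        nlinarith
      linarith [h7.1]
    have h10 : ((T + 1 : ℤ) * S2 + 1) * (x : ℤ) ^ 2 ≤ (x : ℤ) ^ 3 := by
      calc ((T + 1 : ℤ) * S2 + 1) * (x : ℤ) ^ 2 ≤ (x : ℤ) * (x : ℤ) ^ 2 := by gcongr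
        _ = (x : ℤ) ^ 3 := by ring
    have h14 : M i i ≤ |M i i| := le_abs_self _
    nlinarith
  obtain ⟨t, ht⟩ := reduce M ((S2 + S3) * x ^ 3) hB hdiag w
  refine ⟨fun i => (w i - ∑ j, M i j * t j).toNat, fun i => ⟨?_, ?_⟩, ?_⟩
  · have h15 := (ht i).1
    have h16 : ((1 : ℕ) : ℤ) ≤ w i - ∑ j, M i j * t j := by exact_mod_cast h15
    exact (Int.le_toNat (by linarith)).2 h16
  · have h15 := (ht i).2
    have h17 : (0 : ℤ) ≤ 1 + 2 * T * (S2 + S3) := by positivity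
    apply Int.toNat_le.2
    push_cast
    rw [Int.toNat_of_nonneg h17]
    have h18 : (1 : ℤ) ≤ (x : ℤ) ^ 3 := one_le_pow₀ hx1
    nlinarith
  · have h11 : ∀ i, U i ^ (w i - ∑ j, M i j * t j).toNat =
        U i ^ (w i) * ∏ j, (U i ^ (M i j)) ^ (- t j) := by
      intro i
      rw [← zpow_natCast, Int.toNat_of_nonneg (by linarith [(ht i).1]), sub_eq_add_neg, zpow_add]
      congr 1
      have h12 : ∀ j, (U i ^ (M i j)) ^ (- t j) = U i ^ (- (M i j * t j)) := by
        intro j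
        rw [← zpow_mul]
        congr 1
        ring
      rw [Finset.prod_congr rfl fun j _ => h12 j, ← zpow_sum', Finset.sum_neg_distrib]
    rw [Finset.prod_congr rfl fun i _ => h11 i, Finset.prod_mul_distrib, Finset.prod_comm]
    have h13 : ∏ j, ∏ i, (U i ^ (M i j)) ^ (- t j) = 1 := by
      refine Finset.prod_eq_one fun j _ => ?_
      rw [Finset.prod_zpow]
      have := hQ x (by omega) U hU j
      rw [hM]
      simp only
      rw [this, one_zpow]
    rw [h13, mul_one]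

end Pool.Agent.H902A
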