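import Pool.Agent.H902A.Exi
import Pool.Agent.H902A.Ex

set_option autoImplicit false

/-!
Short relations between the units `1 + u_i x` modulo `x ^ r`.
-/

namespace Pool.Agent.H902A

open Finset

/-- an integer multiple of a rational polynomial of degree at most three -/
theorem exists_int (e : Polynomial ℚ) (D : ℕ) (hD : ∀ n, (e.coeff n).den ∣ D)
    (hdeg : e.natDegree ≤ 3) : ∃ E : Polynomial ℤ, E.natDegree ≤ 3 ∧
      (∀ n, (E.coeff n : ℚ) = D * e.coeff n) ∧
      phi E = PowerSeries.C (D : ℚ) * (e : PowerSeries ℚ) := by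
  set E : Polynomial ℤ := ∑ n ∈ range 4,
    Polynomial.C (((D / (e.coeff n).den : ℕ) : ℤ) * (e.coeff n).num) * Polynomial.X ^ n with hE
  have h1 : ∀ n, (((D / (e.coeff n).den : ℕ) : ℤ) * (e.coeff n).num : ℤ) =
      ((D : ℚ) * e.coeff n) := by
    intro n
    have h2 : ((e.coeff n).den : ℚ) ≠ 0 := by exact_mod_cast (e.coeff n).den_nz
    rw [Int.cast_mul, Int.cast_natCast, Nat.cast_div (hD n) h2]
    conv_rhs => rw [← Rat.num_div_den (e.coeff n)]
    field_simp
  have hdegE : E.natDegree ≤ 3 := by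
    rw [hE]
    refine Polynomial.natDegree_sum_le_of_forall_le _ _ fun n hn => ?_
    refine (Polynomial.natDegree_C_mul_X_pow_le _ _).trans ?_
    have := Finset.mem_range.1 hn
    omega
  have hco : ∀ n, (E.coeff n : ℚ) = D * e.coeff n := by
    intro n
    rcases Nat.lt_or_ge n 4 with hn | hn
    · rw [hE, Polynomial.finsetSum_coeff, Finset.sum_eq_single n]
      · rw [Polynomial.coeff_C_mul, Polynomial.coeff_X_pow, if_pos rfl, mul_one]
        exact_mod_cast h1 n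
      · intro m _ hm
        rw [Polynomial.coeff_C_mul, Polynomial.coeff_X_pow, if_neg (Ne.symm hm), mul_zero]
      · intro h
        exact absurd (Finset.mem_range.2 hn) h
    · rw [Polynomial.coeff_eq_zero_of_natDegree_lt (lt_of_le_of_lt hdegE hn),
        Polynomial.coeff_eq_zero_of_natDegree_lt (lt_of_le_of_lt hdeg hn)]
      simp
  refine ⟨E, hdegE, hco, ?_⟩
  ext n
  rw [coeff_phi, hco, PowerSeries.coeff_C_mul, Polynomial.coeff_coe]

theorem exists_intvec {T : ℕ} (u : Fin T → ℤ) (hu : ∀ i, u i ≠ 0) (hinj : Function.Injective u)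
    (v : Fin T → ℤ) : ∃ (D : ℕ) (E : Fin T → Polynomial ℤ), 0 < D ∧ (∀ i, (E i).natDegree ≤ 3) ∧
      (∀ i, (E i).coeff 3 = D * v i) ∧
      ∀ n, n < 2 * T + 2 → PowerSeries.coeff n (∑ i, phi (E i) * L (u i : ℚ)) = 0 := by
  obtain ⟨e, hdeg, hco, hS⟩ := exists_vec (fun i => (u i : ℚ)) (fun i => by exact_mod_cast hu i)
    (fun i j hij => hinj (by simpa using hij)) (fun i => (v i : ℚ))
  set D : ℕ := ∏ i, ∏ n ∈ range 4, ((e i).coeff n).den with hD
  have hDpos : 0 < D := Finset.prod_pos fun i _ => Finset.prod_pos fun n _ => Rat.den_pos _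
  have hdvd : ∀ i n, ((e i).coeff n).den ∣ D := by
    intro i n
    rcases Nat.lt_or_ge n 4 with hn | hn
    · exact (Finset.dvd_prod_of_mem _ (Finset.mem_range.2 hn)).trans
        (Finset.dvd_prod_of_mem (fun i => ∏ n ∈ range 4, ((e i).coeff n).den)
          (Finset.mem_univ i))
    · rw [Polynomial.coeff_eq_zero_of_natDegree_lt (lt_of_le_of_lt (hdeg i) hn)]
      simp
  choose E hE1 hE2 hE3 using fun i => exists_int (e i) D (hdvd i) (hdeg i)
  refine ⟨D, E, hDpos, hE1, ?_, ?_⟩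
  · intro i
    have := hE2 i 3
    rw [hco i] at this
    exact_mod_cast this
  · intro n hn
    have h1 : ∑ i, phi (E i) * L (u i : ℚ) = PowerSeries.C (D : ℚ) * S (fun i => (u i : ℚ)) e := by
      unfold S
      rw [Finset.mul_sum]
      refine Finset.sum_congr rfl fun i _ => ?_
      rw [hE3 i, mul_assoc]
    rw [h1, PowerSeries.coeff_C_mul, hS n hn, mul_zero]

/-- size of the values of a polynomial of degree at most three -/
theorem evb (p : Polynomial ℤ) (hp : p.natDegree ≤ 3) (x : ℤ) (hx : 1 ≤ x) :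
    |p.eval x - p.coeff 3 * x ^ 3| ≤ (|p.coeff 0| + |p.coeff 1| + |p.coeff 2|) * x ^ 2 := by
  rw [Polynomial.eval_eq_sum_range' (lt_of_le_of_lt hp (by norm_num : 3 < 4))]
  simp only [Finset.sum_range_succ, Finset.sum_range_zero, zero_add, pow_zero, mul_one, pow_one]
  have h0 := abs_nonneg (p.coeff 0)
  have h1 := abs_nonneg (p.coeff 1)
  have hx2 : 1 ≤ x ^ 2 := one_le_pow₀ hx
  have hx3 : x ≤ x ^ 2 := by nlinarith
  calc |p.coeff 0 + p.coeff 1 * x + p.coeff 2 * x ^ 2 + p.coeff 3 * x ^ 3 - p.coeff 3 * x ^ 3|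
      = |p.coeff 0 + p.coeff 1 * x + p.coeff 2 * x ^ 2| := by congr 1; ring
    _ ≤ |p.coeff 0| + |p.coeff 1 * x| + |p.coeff 2 * x ^ 2| := abs_add_three _ _ _
    _ = |p.coeff 0| + |p.coeff 1| * x + |p.coeff 2| * x ^ 2 := by
        rw [abs_mul, abs_mul, abs_of_nonneg (by linarith : (0 : ℤ) ≤ x),
          abs_of_nonneg (by positivity : (0 : ℤ) ≤ x ^ 2)]
    _ ≤ (|p.coeff 0| + |p.coeff 1| + |p.coeff 2|) * x ^ 2 := by nlinarith

theorem ev_nonneg (p : Polynomial ℤ) (hp : p.natDegree ≤ 3) (h3 : 1 ≤ p.coeff 3) (x : ℤ)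
    (hx : 1 ≤ x) (hx2 : |p.coeff 0| + |p.coeff 1| + |p.coeff 2| ≤ x) : 0 ≤ p.eval x := by
  have h := evb p hp x hx
  rw [abs_le] at h
  have h4 : (|p.coeff 0| + |p.coeff 1| + |p.coeff 2|) * x ^ 2 ≤ x ^ 3 := by
    calc _ ≤ x * x ^ 2 := by gcongr
      _ = x ^ 3 := by ring
  have h5 : x ^ 3 ≤ p.coeff 3 * x ^ 3 := by
    have : 0 < x ^ 3 := by positivity
    nlinarith
  linarith [h.1]

/-- the relation between the units given by a vector of polynomials -/
theorem unit_rel {T : ℕ} (u : Fin T → ℤ) (E : Fin T → Polynomial ℤ)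
    (hE : ∀ i, (E i).natDegree ≤ 3) (hE3 : ∀ i, 1 ≤ (E i).coeff 3) (r : ℕ) (hr : 1 ≤ r)
    (h : ∀ n, n < r → PowerSeries.coeff n (∑ i, phi (E i) * L (u i : ℚ)) = 0) :
    ∃ x0 : ℕ, ∀ x : ℕ, x0 ≤ x → ∀ U : Fin T → (ZMod (x ^ r))ˣ,
      (∀ i, (U i : ZMod (x ^ r)) = ((1 + u i * x : ℤ) : ZMod (x ^ r))) →
      ∏ i, U i ^ ((r.factorial : ℤ) ^ 2 * (E i).eval (x : ℤ)) = 1 := by
  refine ⟨1 + ∑ i, (|(E i).coeff 0| + |(E i).coeff 1| + |(E i).coeff 2|).toNat, ?_⟩
  intro x hx U hU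
  have hx1 : (1 : ℤ) ≤ x := by
    have : 1 ≤ x := le_trans (Nat.le_add_right _ _) hx
    exact_mod_cast this
  have hnn : ∀ i, 0 ≤ (E i).eval (x : ℤ) := by
    intro i
    refine ev_nonneg _ (hE i) (hE3 i) _ hx1 ?_
    have h1 : (|(E i).coeff 0| + |(E i).coeff 1| + |(E i).coeff 2|).toNat ≤ x := by
      refine le_trans ?_ (le_trans (Nat.le_add_left _ 1) hx)
      exact Finset.single_le_sum (f := fun i =>
        (|(E i).coeff 0| + |(E i).coeff 1| + |(E i).coeff 2|).toNat) (fun i _ => Nat.zero_le _)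
        (Finset.mem_univ i)
    exact Int.toNat_le.1 h1
  set c : Fin T → ℕ := fun i => ((r.factorial : ℤ) ^ 2 * (E i).eval (x : ℤ)).toNat with hc
  have hcc : ∀ i, (c i : ℤ) = (r.factorial : ℤ) ^ 2 * (E i).eval (x : ℤ) := fun i =>
    Int.toNat_of_nonneg (mul_nonneg (by positivity) (hnn i))
  have hdvd := exp_dvd r hr u E h (x : ℤ) c hcc
  have h2 : ∏ i, U i ^ (c i) = 1 := by
    apply Units.ext
    rw [Units.coe_prod, Units.val_one]
    have h3 : ((∏ i, (1 + u i * (x : ℤ)) ^ (c i) - 1 : ℤ) : ZMod (x ^ r)) = 0 := by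
      rw [ZMod.intCast_zmod_eq_zero_iff_dvd]
      exact_mod_cast hdvd
    rw [Int.cast_sub, Int.cast_prod, Int.cast_one, sub_eq_zero] at h3
    rw [← h3]
    refine Finset.prod_congr rfl fun i _ => ?_
    rw [Units.val_pow_eq_pow_val, hU i, Int.cast_pow]
  rw [← h2]
  refine Finset.prod_congr rfl fun i _ => ?_
  rw [← hcc i, zpow_natCast]

/-- the lattice of relations has a nearly diagonal basis of vectors of size `x ^ 3` -/
theorem lattice {T : ℕ} (u : Fin T → ℤ) (hu : ∀ i, u i ≠ 0) (hinj : Function.Injective u) :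
    ∃ (Q : Fin T → Fin T → Polynomial ℤ) (x0 : ℕ), (∀ i j, (Q i j).natDegree ≤ 3) ∧
      (∀ i j, i ≠ j → (Q i j).coeff 3 = 0) ∧ (∀ i, 1 ≤ (Q i i).coeff 3) ∧
      ∀ x : ℕ, x0 ≤ x → ∀ U : Fin T → (ZMod (x ^ (2 * T + 2)))ˣ,
      (∀ i, (U i : ZMod (x ^ (2 * T + 2))) = ((1 + u i * x : ℤ) : ZMod (x ^ (2 * T + 2)))) →
      ∀ j, ∏ i, U i ^ ((Q i j).eval (x : ℤ)) = 1 := by
  obtain ⟨D0, E0, hD0, hE0, hE03, hE0S⟩ := exists_intvec u hu hinj (fun _ => 1)
  choose D E hD hE hE3 hES using fun j : Fin T =>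
    exists_intvec u hu hinj (fun i => 1 + if i = j then 1 else 0)
  obtain ⟨x1, hx1⟩ := unit_rel u E0 hE0 (fun i => by rw [hE03 i]; omega)
    (2 * T + 2) (by omega) hE0S
  have hpos : ∀ j i, 1 ≤ (E j i).coeff 3 := by
    intro j i
    rw [hE3 j i]
    have := hD j
    split_ifs
    · push_cast
      nlinarith
    · push_cast
      omega
  choose x2 hx2 using fun j : Fin T => unit_rel u (E j) (hE j) (hpos j)
    (2 * T + 2) (by omega) (hES j)
  set N : ℤ := ((2 * T + 2).factorial : ℤ) ^ 2 with hN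
  have hNpos : 0 < N := by positivity
  refine ⟨fun i j => Polynomial.C (N * D0) * E j i - Polynomial.C (N * D j) * E0 i,
    x1 + ∑ j, x2 j, ?_, ?_, ?_, ?_⟩
  · intro i j
    refine (Polynomial.natDegree_sub_le _ _).trans (max_le ?_ ?_)
    · exact (Polynomial.natDegree_C_mul_le _ _).trans (hE j i)
    · exact (Polynomial.natDegree_C_mul_le _ _).trans (hE0 i)
  · intro i j hij
    rw [Polynomial.coeff_sub, Polynomial.coeff_C_mul, Polynomial.coeff_C_mul, hE3, hE03,
      if_neg hij]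
    ring
  · intro i
    rw [Polynomial.coeff_sub, Polynomial.coeff_C_mul, Polynomial.coeff_C_mul, hE3, hE03,
      if_pos rfl]
    have h1 : (0 : ℤ) < N * D0 * D i := by
      have := hD i
      positivity
    nlinarith
  · intro x hx U hU j
    have hxj : x2 j ≤ x := by
      refine le_trans ?_ (le_trans (Nat.le_add_left _ x1) hx)
      exact Finset.single_le_sum (f := x2) (fun i _ => Nat.zero_le _) (Finset.mem_univ j)
    have h1 := hx1 x (le_trans (Nat.le_add_right _ _) hx) U hU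
    have h2 := hx2 j x hxj U hU
    have h3 : ∀ i, U i ^ ((Polynomial.C (N * D0) * E j i -
        Polynomial.C (N * D j) * E0 i).eval (x : ℤ)) =
        (U i ^ (N * (E j i).eval (x : ℤ))) ^ (D0 : ℤ) *
          ((U i ^ (N * (E0 i).eval (x : ℤ))) ^ (D j : ℤ))⁻¹ := by
      intro i
      rw [← zpow_mul, ← zpow_mul, ← zpow_neg, ← zpow_add]
      congr 1
      simp only [Polynomial.eval_sub, Polynomial.eval_mul, Polynomial.eval_C]
      ring
    rw [Finset.prod_congr rfl fun i _ => h3 i, Finset.prod_mul_distrib, Finset.prod_inv_distrib,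
      Finset.prod_zpow, Finset.prod_zpow, h1, h2]
    simp

end Pool.Agent.H902A
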