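import Mathlib

set_option autoImplicit false

/-!
Series `log (1 + u X)` and a Hermite–Padé type nondegeneracy statement.
-/

namespace Pool.Agent.H902A

open Finset

/-- the series `log (1 + u X)` -/
noncomputable def L (u : ℚ) : PowerSeries ℚ :=
  PowerSeries.mk fun n => if n = 0 then 0 else (-1) ^ (n + 1) * u ^ n / n

/-- `1 + u X` -/
noncomputable def W (u : ℚ) : Polynomial ℚ := 1 + Polynomial.C u * Polynomial.X

theorem coeff_L (u : ℚ) (n : ℕ) :
    PowerSeries.coeff n (L u) = if n = 0 then 0 else (-1) ^ (n + 1) * u ^ n / n := by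
  rw [L, PowerSeries.coeff_mk]

theorem coeff_dL (u : ℚ) (n : ℕ) :
    PowerSeries.coeff n (PowerSeries.derivative ℚ (L u)) = (-1) ^ n * u ^ (n + 1) := by
  rw [PowerSeries.coeff_derivative, coeff_L]
  have h : ((n : ℚ) + 1) ≠ 0 := by positivity
  simp only [Nat.add_eq_zero_iff, one_ne_zero, and_false, if_false]
  push_cast
  field_simp
  ring

theorem dL (u : ℚ) :
    (W u : PowerSeries ℚ) * (PowerSeries.derivative ℚ (L u)) = PowerSeries.C u := by
  ext n
  have hW : (W u : PowerSeries ℚ) = 1 + PowerSeries.C u * PowerSeries.X := by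
    simp [W]
  rw [hW, add_mul, one_mul, map_add, coeff_dL, mul_assoc, PowerSeries.coeff_C_mul]
  cases n with
  | zero => simp
  | succ n =>
    rw [PowerSeries.coeff_succ_X_mul, coeff_dL, PowerSeries.coeff_C]
    simp
    ring

theorem dW (u : ℚ) :
    PowerSeries.derivative ℚ (W u : PowerSeries ℚ) = PowerSeries.C u := by
  rw [PowerSeries.derivative_coe]
  simp [W]

theorem ddL (u : ℚ) :
    (W u : PowerSeries ℚ) ^ 2 *
      (PowerSeries.derivative ℚ (PowerSeries.derivative ℚ (L u))) = - PowerSeries.C u ^ 2 := by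
  have h := congrArg (PowerSeries.derivative ℚ) (dL u)
  rw [Derivation.leibniz, dW, PowerSeries.derivative_C, smul_eq_mul, smul_eq_mul] at h
  have h2 := dL u
  linear_combination (W u : PowerSeries ℚ) * h - PowerSeries.C u * h2

/-- the linear combination `∑ e_i log (1 + u_i X)` -/
noncomputable def S {T : ℕ} (u : Fin T → ℚ) (e : Fin T → Polynomial ℚ) : PowerSeries ℚ :=
  ∑ i, (e i : PowerSeries ℚ) * L (u i)

theorem eval_W (u x : ℚ) : (W u).eval x = 1 + u * x := by simp [W]

theorem W_ne (u : ℚ) : W u ≠ 0 := by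
  intro h
  have := congrArg (fun p => Polynomial.eval 0 p) h
  simp [W] at this

theorem natDegree_W (u : ℚ) : (W u).natDegree ≤ 1 := by
  unfold W
  compute_degree

/-- the numerator of the second derivative -/
noncomputable def P {T : ℕ} (u a b : Fin T → ℚ) : Polynomial ℚ :=
  ∑ i, (Polynomial.C (2 * b i * u i) * W (u i) -
    (Polynomial.C (a i) + Polynomial.C (b i) * Polynomial.X) * Polynomial.C (u i ^ 2)) *
      ∏ j ∈ univ.erase i, W (u j) ^ 2

theorem P_eq {T : ℕ} (u a b : Fin T → ℚ) :
    (PowerSeries.derivative ℚ (PowerSeries.derivative ℚ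
      (S u fun i => Polynomial.C (a i) + Polynomial.C (b i) * Polynomial.X))) *
      ((∏ j, W (u j) ^ 2 : Polynomial ℚ) : PowerSeries ℚ) = (P u a b : PowerSeries ℚ) := by
  unfold S P
  rw [map_sum, map_sum, Finset.sum_mul]
  have hsum : ((∑ i, (Polynomial.C (2 * b i * u i) * W (u i) -
    (Polynomial.C (a i) + Polynomial.C (b i) * Polynomial.X) * Polynomial.C (u i ^ 2)) *
      ∏ j ∈ univ.erase i, W (u j) ^ 2 : Polynomial ℚ) : PowerSeries ℚ) =
      ∑ i, (((Polynomial.C (2 * b i * u i) * W (u i) -
    (Polynomial.C (a i) + Polynomial.C (b i) * Polynomial.X) * Polynomial.C (u i ^ 2)) *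
      ∏ j ∈ univ.erase i, W (u j) ^ 2 : Polynomial ℚ) : PowerSeries ℚ) := by
    rw [← Polynomial.coeToPowerSeries.ringHom_apply, map_sum]
    simp
  rw [hsum]
  refine Finset.sum_congr rfl fun i _ => ?_
  have hprod : ((∏ j, W (u j) ^ 2 : Polynomial ℚ)) =
      W (u i) ^ 2 * ∏ j ∈ univ.erase i, W (u j) ^ 2 :=
    (Finset.mul_prod_erase univ (fun j => W (u j) ^ 2) (Finset.mem_univ i)).symm
  rw [hprod]
  have hd1 : PowerSeries.derivative ℚ
      (((Polynomial.C (a i) + Polynomial.C (b i) * Polynomial.X : Polynomial ℚ)) :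
        PowerSeries ℚ) = PowerSeries.C (b i) := by
    rw [PowerSeries.derivative_coe]
    simp
  simp only [Derivation.leibniz, smul_eq_mul, hd1, map_add, PowerSeries.derivative_C]
  have h1 := dL (u i)
  have h2 := ddL (u i)
  push_cast [Polynomial.coe_mul]
  simp only [map_mul, map_pow, map_ofNat] at *
  linear_combination ((∏ j ∈ univ.erase i, W (u j) ^ 2 : Polynomial ℚ) : PowerSeries ℚ) *
    (PowerSeries.C (a i) + PowerSeries.C (b i) * PowerSeries.X) * h2 +
    2 * PowerSeries.C (b i) * ((∏ j ∈ univ.erase i, W (u j) ^ 2 : Polynomial ℚ) : PowerSeries ℚ) *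
      (W (u i) : PowerSeries ℚ) * h1

theorem natDegree_P {T : ℕ} (hT : 0 < T) (u a b : Fin T → ℚ) : (P u a b).natDegree < 2 * T := by
  have h : (P u a b).natDegree ≤ 1 + 2 * (T - 1) := by
    unfold P
    refine Polynomial.natDegree_sum_le_of_forall_le _ _ fun i _ => ?_
    refine (Polynomial.natDegree_mul_le).trans (add_le_add ?_ ?_)
    · refine (Polynomial.natDegree_sub_le _ _).trans (max_le ?_ ?_)
      · refine (Polynomial.natDegree_C_mul_le _ _).trans (natDegree_W _)
      · refine (Polynomial.natDegree_mul_C_le _ _).trans ?_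
        compute_degree
    · refine (Polynomial.natDegree_prod_le _ _).trans ?_
      refine (Finset.sum_le_card_nsmul _ _ 2 fun j _ => ?_).trans ?_
      · refine (Polynomial.natDegree_pow_le).trans ?_
        have := natDegree_W (u j)
        omega
      · rw [Finset.card_erase_of_mem (Finset.mem_univ i)]
        simp [mul_comm]
  omega

theorem P_zero {T : ℕ} (hT : 0 < T) (u a b : Fin T → ℚ)
    (h : ∀ n, 2 ≤ n → n ≤ 2 * T + 1 → PowerSeries.coeff n
      (S u fun i => Polynomial.C (a i) + Polynomial.C (b i) * Polynomial.X) = 0) :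
    P u a b = 0 := by
  have h1 : (PowerSeries.X : PowerSeries ℚ) ^ (2 * T) ∣
      (PowerSeries.derivative ℚ (PowerSeries.derivative ℚ
      (S u fun i => Polynomial.C (a i) + Polynomial.C (b i) * Polynomial.X))) := by
    rw [PowerSeries.X_pow_dvd_iff]
    intro m hm
    rw [PowerSeries.coeff_derivative, PowerSeries.coeff_derivative, h (m + 1 + 1) (by omega)
      (by omega)]
    simp
  have h2 : (PowerSeries.X : PowerSeries ℚ) ^ (2 * T) ∣ (P u a b : PowerSeries ℚ) := by
    rw [← P_eq]
    exact h1.mul_right _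
  rw [PowerSeries.X_pow_dvd_iff] at h2
  ext n
  rw [Polynomial.coeff_zero]
  rcases lt_or_ge n (2 * T) with hn | hn
  · have := h2 n hn
    rwa [Polynomial.coeff_coe] at this
  · exact Polynomial.coeff_eq_zero_of_natDegree_lt (lt_of_lt_of_le (natDegree_P hT u a b) hn)

theorem eval_W_ne {T : ℕ} (u : Fin T → ℚ) (hu : ∀ i, u i ≠ 0) (hinj : Function.Injective u)
    (i j : Fin T) (hij : j ≠ i) : (W (u j)).eval (-(1 / u i)) ≠ 0 := by
  rw [eval_W]
  intro h
  apply hij
  apply hinj
  have := hu i
  field_simp at h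
  linarith

theorem eval_W_self {T : ℕ} (u : Fin T → ℚ) (hu : ∀ i, u i ≠ 0)
    (i : Fin T) : (W (u i)).eval (-(1 / u i)) = 0 := by
  rw [eval_W]
  have := hu i
  field_simp
  ring

theorem inj {T : ℕ} (u : Fin T → ℚ) (hu : ∀ i, u i ≠ 0) (hinj : Function.Injective u)
    (a b : Fin T → ℚ)
    (h : ∀ n, 2 ≤ n → n ≤ 2 * T + 1 → PowerSeries.coeff n
      (S u fun i => Polynomial.C (a i) + Polynomial.C (b i) * Polynomial.X) = 0) :
    a = 0 ∧ b = 0 := by
  rcases Nat.eq_zero_or_pos T with hT | hT
  · subst hT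
    exact ⟨Subsingleton.elim _ _, Subsingleton.elim _ _⟩
  have hP := P_zero hT u a b h
  -- first step: `a k + b k x = 0` at `x = - 1 / u k`
  have hab : ∀ k, a k = b k / u k := by
    intro k
    have h1 := congrArg (Polynomial.eval (-(1 / u k))) hP
    unfold P at h1
    rw [Polynomial.eval_finsetSum, Finset.sum_eq_single k] at h1
    · rw [Polynomial.eval_mul, Polynomial.eval_sub, Polynomial.eval_mul, eval_W_self u hu k,
        mul_zero, zero_sub, Polynomial.eval_zero, mul_eq_zero, Polynomial.eval_prod] at h1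
      rcases h1 with h1 | h1
      · rw [neg_eq_zero, Polynomial.eval_mul, Polynomial.eval_C, mul_eq_zero] at h1
        rcases h1 with h1 | h1
        · have h2 : a k + b k * (-(1 / u k)) = 0 := by simpa using h1
          have := hu k
          field_simp at h2 ⊢
          linarith
        · exact absurd h1 (pow_ne_zero 2 (hu k))
      · rw [Finset.prod_eq_zero_iff] at h1
        obtain ⟨j, hj, h1⟩ := h1
        rw [Polynomial.eval_pow] at h1
        exact absurd (pow_eq_zero_iff (two_ne_zero) |>.1 h1)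
          (eval_W_ne u hu hinj k j (Finset.ne_of_mem_erase hj))
    · intro i _ hik
      rw [Polynomial.eval_mul, Polynomial.eval_prod,
        Finset.prod_eq_zero (i := k) (Finset.mem_erase.2 ⟨Ne.symm hik, Finset.mem_univ _⟩)]
      · simp
      · rw [Polynomial.eval_pow, eval_W_self u hu k]
        simp
    · simp
  -- second step
  have hQ : (∏ j, W (u j)) * ∑ i, Polynomial.C (b i * u i) * ∏ j ∈ univ.erase i, W (u j) = 0 := by
    rw [← hP]
    unfold P
    rw [Finset.mul_sum]
    refine Finset.sum_congr rfl fun i _ => ?_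
    have hprod : (∏ j, W (u j)) = W (u i) * ∏ j ∈ univ.erase i, W (u j) :=
      (Finset.mul_prod_erase univ (fun j => W (u j)) (Finset.mem_univ i)).symm
    rw [hprod, Finset.prod_pow, hab i]
    have h3 : (Polynomial.C (b i / u i) + Polynomial.C (b i) * Polynomial.X) *
        Polynomial.C (u i ^ 2) = Polynomial.C (b i * u i) * W (u i) := by
      unfold W
      have h4 : Polynomial.C (b i / u i) * Polynomial.C (u i ^ 2) = Polynomial.C (b i * u i) := by
        rw [← Polynomial.C_mul]
        congr 1
        have := hu i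
        field_simp
      rw [add_mul, h4, Polynomial.C_mul, Polynomial.C_pow]
      ring
    rw [h3]
    have h5 : Polynomial.C (2 * b i * u i) = 2 * Polynomial.C (b i * u i) := by
      rw [show (2 : ℚ) * b i * u i = 2 * (b i * u i) by ring, Polynomial.C_mul]
      rfl
    rw [h5]
    ring
  have hQ2 : ∑ i, Polynomial.C (b i * u i) * ∏ j ∈ univ.erase i, W (u j) = 0 := by
    rcases mul_eq_zero.1 hQ with h1 | h1
    · rw [Finset.prod_eq_zero_iff] at h1
      obtain ⟨j, _, h1⟩ := h1
      exact absurd h1 (W_ne _)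
    · exact h1
  have hb : ∀ k, b k = 0 := by
    intro k
    have h1 := congrArg (Polynomial.eval (-(1 / u k))) hQ2
    rw [Polynomial.eval_finsetSum, Finset.sum_eq_single k] at h1
    · rw [Polynomial.eval_mul, Polynomial.eval_prod, Polynomial.eval_C, Polynomial.eval_zero,
        mul_eq_zero] at h1
      rcases h1 with h1 | h1
      · rcases mul_eq_zero.1 h1 with h2 | h2
        · exact h2
        · exact absurd h2 (hu k)
      · rw [Finset.prod_eq_zero_iff] at h1
        obtain ⟨j, hj, h1⟩ := h1
        exact absurd h1 (eval_W_ne u hu hinj k j (Finset.ne_of_mem_erase hj))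
    · intro i _ hik
      rw [Polynomial.eval_mul, Polynomial.eval_prod,
        Finset.prod_eq_zero (i := k) (Finset.mem_erase.2 ⟨Ne.symm hik, Finset.mem_univ _⟩)
          (eval_W_self u hu k)]
      simp
    · simp
  refine ⟨?_, ?_⟩
  · funext k
    rw [hab k, hb k]
    simp
  · funext k
    exact hb k

end Pool.Agent.H902A
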